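import Mathlib

/-! Nilpotent envelopes built from iterated double centralisers. -/

set_option autoImplicit false

namespace Pool.Agent.MP_b7033c_al.Chain

open Subgroup
open scoped commutatorElement

variable {G : Type} [Group G]

/-- The three subgroups lemma modulo a subgroup normalised by all three. -/
lemma three' {N H₁ H₂ H₃ : Subgroup G} (n1 : H₁ ≤ normalizer (N : Set G))
    (n2 : H₂ ≤ normalizer (N : Set G)) (n3 : H₃ ≤ normalizer (N : Set G))
    (h1 : ⁅⁅H₂, H₃⁆, H₁⁆ ≤ N) (h2 : ⁅⁅H₃, H₁⁆, H₂⁆ ≤ N) : ⁅⁅H₁, H₂⁆, H₃⁆ ≤ N := by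
  set T := normalizer (N : Set G) with hT
  have key : ∀ A B C : Subgroup G, A ≤ T → B ≤ T → C ≤ T → (⁅⁅A, B⁆, C⁆ ≤ N ↔
      ⁅⁅(A.subgroupOf T).map (QuotientGroup.mk' (N.subgroupOf T)),
        (B.subgroupOf T).map (QuotientGroup.mk' (N.subgroupOf T))⁆,
        (C.subgroupOf T).map (QuotientGroup.mk' (N.subgroupOf T))⁆ = ⊥) := by
    intro A B C a b c
    rw [← map_commutator, ← map_commutator, Subgroup.map_eq_bot_iff, QuotientGroup.ker_mk',
      show N.subgroupOf T = N.comap T.subtype from rfl, ← map_le_iff_le_comap, map_commutator,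
      map_commutator, map_subgroupOf_eq_of_le a, map_subgroupOf_eq_of_le b,
      map_subgroupOf_eq_of_le c]
  rw [key _ _ _ n2 n3 n1] at h1
  rw [key _ _ _ n3 n1 n2] at h2
  rw [key _ _ _ n1 n2 n3]
  exact commutator_commutator_eq_bot_of_rotate h1 h2

/-- The centraliser in `E` of `A` modulo `N`. -/
def cmod (E N A : Subgroup G) : Subgroup G where
  carrier := {g | g ∈ E ∧ g ∈ normalizer (N : Set G) ∧ ∀ x ∈ A, ⁅g, x⁆ ∈ N}
  one_mem' := ⟨one_mem _, one_mem _, fun x _ => by simp⟩
  mul_mem' := by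
    rintro g h ⟨a1, a2, a3⟩ ⟨b1, b2, b3⟩
    refine ⟨mul_mem a1 b1, mul_mem a2 b2, fun x hx => ?_⟩
    rw [show ⁅g * h, x⁆ = g * ⁅h, x⁆ * g⁻¹ * ⁅g, x⁆ by simp only [commutatorElement_def]; group]
    exact mul_mem ((mem_normalizer_iff.1 a2 _).1 (b3 x hx)) (a3 x hx)
  inv_mem' := by
    rintro g ⟨a1, a2, a3⟩
    refine ⟨inv_mem a1, inv_mem a2, fun x hx => ?_⟩
    rw [show ⁅g⁻¹, x⁆ = g⁻¹ * ⁅g, x⁆⁻¹ * g⁻¹⁻¹ by simp only [commutatorElement_def]; group]
    exact (mem_normalizer_iff.1 (inv_mem a2) _).1 (inv_mem (a3 x hx))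

lemma le_cmod {E N A H : Subgroup G} :
    H ≤ cmod E N A ↔ H ≤ E ∧ H ≤ normalizer (N : Set G) ∧ ⁅H, A⁆ ≤ N :=
  ⟨fun h => ⟨fun _ hg => (h hg).1, fun _ hg => (h hg).2.1,
      commutator_le.2 fun _ hg x hx => (h hg).2.2 x hx⟩,
    fun h _ hg => ⟨h.1 hg, h.2.1 hg, fun _ hx => h.2.2 (commutator_mem_commutator hg hx)⟩⟩

lemma mem_nz {H : Subgroup G} {b : G} (h1 : ∀ x ∈ H, b * x * b⁻¹ ∈ H)
    (h2 : ∀ x ∈ H, b⁻¹ * x * b⁻¹⁻¹ ∈ H) : b ∈ normalizer (H : Set G) :=
  mem_normalizer_iff.2 fun x => ⟨h1 x, fun h => by simpa [mul_assoc] using h2 _ h⟩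

lemma nz_conj {H : Subgroup G} {b x : G} (h : b ∈ normalizer (H : Set G)) (hx : x ∈ H) :
    b * x * b⁻¹ ∈ H := (mem_normalizer_iff.1 h x).1 hx

lemma nz_bot (b : G) : b ∈ normalizer ((⊥ : Subgroup G) : Set G) :=
  mem_nz (fun x hx => by simp [mem_bot.1 hx]) fun x hx => by simp [mem_bot.1 hx]

lemma nz_cmod {E N A : Subgroup G} {b : G} (h1 : b ∈ normalizer (E : Set G))
    (h2 : b ∈ normalizer (N : Set G)) (h3 : b ∈ normalizer (A : Set G)) :
    b ∈ normalizer (cmod E N A : Set G) := by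
  have key : ∀ b : G, b ∈ normalizer (E : Set G) → b ∈ normalizer (N : Set G) →
      b ∈ normalizer (A : Set G) → ∀ g ∈ cmod E N A, b * g * b⁻¹ ∈ cmod E N A := by
    rintro b h1 h2 h3 g ⟨a1, a2, a3⟩
    refine ⟨nz_conj h1 a1, mul_mem (mul_mem h2 a2) (inv_mem h2), fun x hx => ?_⟩
    rw [show ⁅b * g * b⁻¹, x⁆ = b * ⁅g, b⁻¹ * x * b⁻¹⁻¹⁆ * b⁻¹ by
      simp only [commutatorElement_def]; group]
    exact nz_conj h2 (a3 _ (nz_conj (inv_mem h3) hx))
  exact mem_nz (key b h1 h2 h3) (key _ (inv_mem h1) (inv_mem h2) (inv_mem h3))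

lemma nz_inf {A B : Subgroup G} {b : G} (h1 : b ∈ normalizer (A : Set G))
    (h2 : b ∈ normalizer (B : Set G)) : b ∈ normalizer ((A ⊓ B : Subgroup G) : Set G) :=
  mem_nz (fun _ hx => ⟨nz_conj h1 hx.1, nz_conj h2 hx.2⟩)
    fun _ hx => ⟨nz_conj (inv_mem h1) hx.1, nz_conj (inv_mem h2) hx.2⟩

/-- Iterated double centralisers of `D` in `F` and their centres. -/
def env (F D : Subgroup G) : ℕ → Subgroup G × Subgroup G
  | 0 => (F, ⊥)
  | j + 1 => (cmod (env F D j).1 (env F D j).2 (cmod (env F D j).1 (env F D j).2 D),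
      cmod (env F D j).1 (env F D j).2 D ⊓
        cmod (env F D j).1 (env F D j).2 (cmod (env F D j).1 (env F D j).2 D))

section
variable (F D : Subgroup G)

/-- The double centralisers. -/
def eE (j : ℕ) : Subgroup G := (env F D j).1
/-- Their iterated centres. -/
def eZ (j : ℕ) : Subgroup G := (env F D j).2
/-- The iterated centralisers. -/
def eC (j : ℕ) : Subgroup G := cmod (eE F D j) (eZ F D j) D

lemma eE_succ (j : ℕ) : eE F D (j + 1) = cmod (eE F D j) (eZ F D j) (eC F D j) := rfl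
lemma eZ_succ (j : ℕ) : eZ F D (j + 1) = eC F D j ⊓ eE F D (j + 1) := rfl

lemma eE_anti : Antitone (eE F D) :=
  antitone_nat_of_succ_le fun j => (le_cmod.1 (eE_succ F D j).le).1

lemma eE_C (j : ℕ) : ⁅eE F D (j + 1), eC F D j⁆ ≤ eZ F D j := (le_cmod.1 (eE_succ F D j).le).2.2

lemma eZ_E (j : ℕ) : ⁅eZ F D (j + 1), eE F D (j + 1)⁆ ≤ eZ F D j := by
  rw [commutator_comm]
  exact (commutator_mono le_rfl inf_le_left).trans (eE_C F D j)

lemma eZ_le (j : ℕ) : eZ F D j ≤ eE F D j := by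
  cases j with
  | zero => exact bot_le
  | succ j => exact inf_le_right

lemma eC_le (j : ℕ) : eC F D j ≤ eE F D j ∧ eC F D j ≤ normalizer (eZ F D j : Set G) ∧
    ⁅eC F D j, D⁆ ≤ eZ F D j := le_cmod.1 le_rfl

lemma nz_env {b : G} (h1 : b ∈ normalizer (F : Set G)) (h2 : b ∈ normalizer (D : Set G)) (j : ℕ) :
    b ∈ normalizer (eE F D j : Set G) ∧ b ∈ normalizer (eZ F D j : Set G) := by
  induction j with
  | zero => exact ⟨h1, nz_bot b⟩
  | succ j ih =>
    have a := nz_cmod ih.1 ih.2 h2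
    have b := nz_cmod ih.1 ih.2 a
    exact ⟨b, nz_inf a b⟩

variable {F D}

lemma inv_step {j : ℕ} (h1 : D ≤ eE F D j) (h2 : eE F D j ≤ normalizer (eZ F D j : Set G)) :
    eZ F D j ≤ eZ F D (j + 1) :=
  le_inf (le_cmod.2 ⟨eZ_le F D j, le_normalizer,
      le_normalizer_iff_commutator_le_left.1 (h1.trans h2)⟩)
    (le_cmod.2 ⟨eZ_le F D j, le_normalizer,
      le_normalizer_iff_commutator_le_left.1 (eC_le F D j).2.1⟩)

lemma inv_env (hD : D ≤ F) (j : ℕ) :
    D ≤ eE F D j ∧ eE F D j ≤ normalizer (eZ F D j : Set G) := by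
  induction j with
  | zero => exact ⟨hD, fun b _ => nz_bot b⟩
  | succ j ih =>
    refine ⟨le_cmod.2 ⟨ih.1, ih.1.trans ih.2, ?_⟩, ?_⟩
    · rw [commutator_comm]; exact (eC_le F D j).2.2
    · exact le_normalizer_iff_commutator_le_left.2 ((eZ_E F D j).trans (inv_step ih.1 ih.2))

lemma eZ_mono (hD : D ≤ F) : Monotone (eZ F D) :=
  monotone_nat_of_le_succ fun j => inv_step (inv_env hD j).1 (inv_env hD j).2

lemma eE_nz (hD : D ≤ F) {m j : ℕ} (h : m ≤ j) : eE F D j ≤ normalizer (eZ F D m : Set G) :=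
  (eE_anti F D h).trans (inv_env hD m).2

lemma shift (hD : D ≤ F) {j : ℕ} {U : Subgroup G} (hU : U ≤ eE F D j) (i : ℕ) :
    ∀ (m : ℕ) (A : Subgroup G), m + i ≤ j → A ≤ eE F D j → ⁅A, U⁆ ≤ eZ F D (m + i) →
      ⁅A, U.lowerCentralSeries i⁆ ≤ eZ F D m := by
  induction i with
  | zero => exact fun m A _ _ h => h
  | succ i ih =>
    intro m A hm hA h
    have hn := eE_nz hD (show m ≤ j by omega)
    have hz : ∀ k, k + 1 ≤ j → ⁅eZ F D (k + 1), U⁆ ≤ eZ F D k := fun k hk =>
      (commutator_mono le_rfl (hU.trans (eE_anti F D hk))).trans (eZ_E F D k)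
    rw [commutator_comm, Subgroup.lowerCentralSeries_succ]
    refine three' (((lowerCentralSeries_le_self U i).trans hU).trans hn) (hU.trans hn)
      (hA.trans hn) ?_ ?_
    · rw [commutator_comm U A]
      exact (commutator_mono h le_rfl).trans (ih m _ (by omega)
        ((eZ_mono hD hm).trans (eZ_le F D j)) (hz _ hm))
    · exact (commutator_mono (ih (m + 1) A (by omega) hA (by rwa [add_right_comm])) le_rfl).trans
        (hz m (by omega))

lemma stab (hD : D ≤ F) {j : ℕ} {U : Subgroup G} (hDU : D ≤ U) (hU : U ≤ eE F D j)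
    (h : F ⊓ centralizer (D.lowerCentralSeries j : Set G) ≤
      centralizer (U.lowerCentralSeries j : Set G)) : ⁅eC F D j, U⁆ ≤ eZ F D j := by
  obtain ⟨c1, -, c3⟩ := eC_le F D j
  have key : ∀ m i, m + i = j → ⁅eC F D j, U.lowerCentralSeries i⁆ ≤ eZ F D m := by
    intro m
    induction m with
    | zero =>
      intro i hi
      obtain rfl : i = j := by omega
      have h1 := shift hD (inv_env hD i).1 i 0 _ (by omega) c1 (by rwa [zero_add])
      have h2 := commutator_eq_bot_iff_le_centralizer.1 (le_bot_iff.1 h1)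
      exact (commutator_eq_bot_iff_le_centralizer.2
        ((le_inf (c1.trans (eE_anti F D (Nat.zero_le i))) h2).trans h)).le
    | succ m ih =>
      intro i hi
      have hn := eE_nz hD (show m ≤ j by omega)
      have hγ := (lowerCentralSeries_le_self U i).trans hU
      have hT : ⁅eC F D j, U.lowerCentralSeries i⁆ ≤ eE F D j :=
        (commutator_le_sup _ _).trans (sup_le c1 hγ)
      refine le_inf (le_cmod.2 ⟨hT.trans (eE_anti F D (show m ≤ j by omega)), hT.trans hn, ?_⟩)
        (hT.trans (eE_anti F D (show m + 1 ≤ j by omega)))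
      refine three' (c1.trans hn) (hγ.trans hn) ((hDU.trans hU).trans hn) ?_ ?_
      · rw [commutator_comm]
        exact (commutator_mono le_rfl (commutator_mono le_rfl hDU)).trans (ih (i + 1) (by omega))
      · rw [commutator_comm D]
        refine (commutator_mono c3 le_rfl).trans (shift hD hU i m _ (by omega) (eZ_le F D j) ?_)
        obtain rfl : j = m + i + 1 := by omega
        exact (commutator_mono le_rfl hU).trans (eZ_E F D _)
  exact key j 0 rfl

end

/-- A nilpotent subgroup normalised by the normaliser of `D` that contains all nilpotent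
overgroups of `D` with the same centralisers of the lower central series. -/
theorem envelope {F D : Subgroup G} (hD : D ≤ F) (n : ℕ) : ∃ Y : Subgroup G, Y ≤ F ∧
    Y.lowerCentralSeries n = ⊥ ∧
    (∀ b ∈ F, b ∈ normalizer (D : Set G) → b ∈ normalizer (Y : Set G)) ∧
    ∀ U : Subgroup G, D ≤ U → U ≤ F → U.lowerCentralSeries n = ⊥ →
      (∀ i, i < n → F ⊓ centralizer (D.lowerCentralSeries i : Set G) ≤
        centralizer (U.lowerCentralSeries i : Set G)) → U ≤ Y := by
  refine ⟨eZ F D n, (eZ_le F D n).trans (eE_anti F D (Nat.zero_le n)), ?_,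
    fun b h1 h2 => (nz_env F D (le_normalizer h1) h2 n).2, fun U h1 h2 h3 h4 => ?_⟩
  · have key : ∀ i m, m + i = n → (eZ F D n).lowerCentralSeries i ≤ eZ F D m := by
      intro i
      induction i with
      | zero => intro m hm; obtain rfl : m = n := by omega
                exact le_rfl
      | succ i ih =>
        intro m hm
        exact (commutator_mono (ih (m + 1) (by omega))
          ((eZ_le F D n).trans (eE_anti F D (by omega)))).trans (eZ_E F D m)
    exact le_bot_iff.1 (key n 0 (zero_add n))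
  · have hE : ∀ j, j ≤ n → U ≤ eE F D j := by
      intro j
      induction j with
      | zero => exact fun _ => h2
      | succ j ih =>
        intro hj
        have a := ih (by omega)
        refine le_cmod.2 ⟨a, a.trans (inv_env hD j).2, ?_⟩
        rw [commutator_comm]
        exact stab hD h1 a (h4 j hj)
    have key : ∀ m i, m + i = n → U.lowerCentralSeries i ≤ eZ F D m := by
      intro m
      induction m with
      | zero => intro i hi; obtain rfl : i = n := by omega
                exact h3.le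
      | succ m ih =>
        intro i hi
        have hγ := (lowerCentralSeries_le_self U i).trans (hE (m + 1) (by omega))
        refine le_inf (le_cmod.2 ⟨hγ.trans (eE_anti F D (by omega)),
          hγ.trans (eE_nz hD (by omega)), ?_⟩) hγ
        exact (commutator_mono le_rfl h1).trans (ih (i + 1) (by omega))
    exact key n 0 rfl

/-- The normaliser condition, with an invariant witness. -/
lemma exists_term {X M : Subgroup G} {n : ℕ} (hX : X.lowerCentralSeries n = ⊥) (h : ¬ X ≤ M) :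
    ∃ j, ¬ X.lowerCentralSeries j ≤ M ∧
      X.lowerCentralSeries j ≤ normalizer ((X ⊓ M : Subgroup G) : Set G) := by
  classical
  have ex : ∃ k, X.lowerCentralSeries k ≤ M := ⟨n, hX.le.trans bot_le⟩
  have h0 : Nat.find ex ≠ 0 := fun e => h (by simpa [e] using Nat.find_spec ex)
  obtain ⟨j, hj⟩ := Nat.exists_eq_succ_of_ne_zero h0
  refine ⟨j, Nat.find_min ex (by omega), le_normalizer_iff_commutator_le_right.2 ?_⟩
  have h1 : X.lowerCentralSeries (j + 1) ≤ M := by simpa [hj] using Nat.find_spec ex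
  exact (commutator_mono le_rfl inf_le_left).trans
    (le_inf (lowerCentralSeries_le_self X (j + 1)) h1)

lemma exists_nz {X M : Subgroup G} {n : ℕ} (hX : X.lowerCentralSeries n = ⊥) (h : ¬ X ≤ M) :
    ∃ b ∈ X, b ∉ M ∧ b ∈ normalizer ((X ⊓ M : Subgroup G) : Set G) := by
  obtain ⟨j, h1, h2⟩ := exists_term hX h
  obtain ⟨b, hb, hb'⟩ := SetLike.not_le_iff_exists.1 h1
  exact ⟨b, lowerCentralSeries_le_self X j hb, hb', h2 hb⟩

end Pool.Agent.MP_b7033c_al.Chain
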