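import Pool.Agent.MP_b7033c_al.ChainDefs
import Pool.Agent.MP_b7033c_al.Env
import Pool.Agent.Mg.Fb7033cp.G5daf84
import Pool.Agent.Mg.Fb7033cp.G8b4b25

/-! Local finiteness of the kernel under a chain condition on centralisers. -/

set_option autoImplicit false

namespace Pool.Agent.MP_b7033c_al.Chain

open Subgroup
open scoped commutatorElement

variable {G : Type} [Group G]

lemma nz_of_fin {M : Subgroup G} {g : G} (hg : IsOfFinOrder g) (h : ∀ x ∈ M, g * x * g⁻¹ ∈ M) :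
    g ∈ normalizer (M : Set G) := by
  obtain ⟨k, hk, e⟩ := isOfFinOrder_iff_pow_eq_one.1 hg
  obtain ⟨k, rfl⟩ := Nat.exists_eq_succ_of_ne_zero hk.ne'
  refine mem_nz h fun x hx => ?_
  rw [show g⁻¹ = g ^ k from (eq_inv_of_mul_eq_one_left (by rw [← pow_succ]; exact e)).symm]
  exact Three.ModA.conj_pow_mem h k x hx

/-- Elements whose order is a power of `q`. -/
def QE (q : ℕ) (x : G) : Prop := ∃ k : ℕ, x ^ q ^ k = 1

lemma QE.conj {q : ℕ} {x : G} (h : QE q x) (g : G) : QE q (g * x * g⁻¹) := by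
  obtain ⟨k, hk⟩ := h
  exact ⟨k, by rw [conj_pow, hk, mul_one, mul_inv_cancel]⟩

lemma QE.inv {q : ℕ} {x : G} (h : QE q x) : QE q x⁻¹ := by
  obtain ⟨k, hk⟩ := h
  exact ⟨k, by rw [inv_pow, hk, inv_one]⟩

lemma qmul_fin {K : Type} [Group K] [Finite K] [Group.IsNilpotent K] {q : ℕ} (hq : q.Prime)
    {x y : K} (hx : QE q x) (hy : QE q y) : QE q (x * y) := by
  have := Fact.mk hq
  have key : ∀ z : K, QE q z → ∃ Q : Sylow q K, z ∈ (Q : Subgroup K) := by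
    rintro z ⟨k, hk⟩
    obtain ⟨Q, hQ⟩ := IsPGroup.exists_le_sylow (p := q) (P := zpowers z) (by
      rintro ⟨_, m, rfl⟩
      refine ⟨k, Subtype.ext ?_⟩
      change (z ^ m) ^ q ^ k = 1
      rw [← zpow_natCast, ← zpow_mul, mul_comm, zpow_mul, zpow_natCast, hk, one_zpow])
    exact ⟨Q, hQ (mem_zpowers z)⟩
  obtain ⟨Q, h1⟩ := key x hx
  obtain ⟨Q', h2⟩ := key y hy
  have := Sylow.unique_of_normal Q inferInstance
  obtain rfl : Q = Q' := Subsingleton.elim _ _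
  obtain ⟨k, hk⟩ := Q.isPGroup' ⟨x * y, mul_mem h1 h2⟩
  exact ⟨k, congrArg Subtype.val hk⟩

lemma qpart {Y : Subgroup G} {n q : ℕ} (hq : q.Prime) (hY : Y.lowerCentralSeries n = ⊥)
    (hp : ∀ x ∈ Y, IsOfFinOrder x) : ∃ Y' : Subgroup G, Y'.lowerCentralSeries n = ⊥ ∧
      ∀ x, x ∈ Y' ↔ x ∈ Y ∧ QE q x := by
  let Y' : Subgroup G :=
    { carrier := {x | x ∈ Y ∧ QE q x}
      one_mem' := ⟨one_mem _, 0, by simp⟩
      inv_mem' := fun h => ⟨inv_mem h.1, h.2.inv⟩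
      mul_mem' := by
        rintro x y ⟨x1, k, x2⟩ ⟨y1, l, y2⟩
        refine ⟨mul_mem x1 y1, ?_⟩
        have hs : ({x, y} : Set G) ⊆ Y := by
          rintro _ (rfl | rfl) <;> assumption
        have := Three.nilLF G Y n hY hp {x, y} (Set.toFinite _) hs
        have : Group.IsNilpotent (closure ({x, y} : Set G)) :=
          isNilpotent_of_lowerCentralSeries_eq_bot (n := n) (le_bot_iff.1
            ((lowerCentralSeries_mono n ((closure_le Y).2 hs)).trans hY.le))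
        obtain ⟨m, hm⟩ := qmul_fin (K := closure ({x, y} : Set G)) hq
          (x := ⟨x, subset_closure (by simp)⟩) (y := ⟨y, subset_closure (by simp)⟩)
          ⟨k, Subtype.ext x2⟩ ⟨l, Subtype.ext y2⟩
        exact ⟨m, congrArg Subtype.val hm⟩ }
  have hle : Y' ≤ Y := fun x hx => hx.1
  exact ⟨Y', le_bot_iff.1 ((lowerCentralSeries_mono n hle).trans hY.le), fun x => Iff.rfl⟩

/-- Subgroups of `M` whose normaliser in `F` does not normalise `M`. -/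
def DD (F M D : Subgroup G) : Prop :=
  D ≤ M ∧ ∃ b ∈ F, b ∉ normalizer (M : Set G) ∧ b ∈ normalizer (D : Set G)

section grow
variable {F M : Subgroup G} [hF : F.Normal] {a : G} {n q : ℕ}

lemma conj_step (hMF : M ≤ F) (hM : M.lowerCentralSeries n = ⊥)
    (hp : ∀ x ∈ F, IsOfFinOrder x) (hQ : ∀ x ∈ M, QE q x)
    (hs : ∀ g ∈ F, QE q g → g ∈ normalizer (M : Set G) → g ∈ M) {D : Subgroup G} (hD : D ≤ M)
    {g s : G} (hg : g ∈ F) (hgM : g ∉ normalizer (M : Set G)) (h1 : g ∈ normalizer (D : Set G))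
    (h2 : s ∈ M) (h3 : s ∉ D) (h4 : g⁻¹ * s * g ∈ M) :
    ∃ D', DD F M D' ∧ D ≤ D' ∧ ¬ D' ≤ D := by
  let X := M.map (MulAut.conj g).toMonoidHom
  have hX : ∀ x, g⁻¹ * x * g ∈ M → x ∈ X := fun x hx =>
    ⟨_, hx, by change g * (g⁻¹ * x * g) * g⁻¹ = x; group⟩
  have hn : X.lowerCentralSeries n = ⊥ := by
    rw [← map_lowerCentralSeries, hM, Subgroup.map_bot]
  obtain ⟨b, ⟨y, hy, rfl⟩, b2, b3⟩ := exists_nz hn (M := M) fun h =>
    hgM (nz_of_fin (hp g hg) fun x hx => h ⟨x, hx, rfl⟩)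
  have b1 := hF.conj_mem y (hMF hy) g
  refine ⟨X ⊓ M, ⟨inf_le_right, _, b1, fun h => b2 (hs _ b1 ((hQ y hy).conj g) h), b3⟩,
    fun d hd => ⟨hX d (hD ?_), hD hd⟩, fun h => h3 (h ⟨hX s h4, h2⟩)⟩
  simpa using nz_conj (inv_mem h1) hd

lemma grow (ha : a ∉ F) (hMF : M ≤ F) (hM : M.lowerCentralSeries n = ⊥)
    (haM : a ∈ normalizer (M : Set G)) (hp : ∀ x ∈ F, IsOfFinOrder x) (hQ : ∀ x ∈ M, QE q x)
    (hs : ∀ g ∈ F, QE q g → g ∈ normalizer (M : Set G) → g ∈ M)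
    (hk : ∀ s ∈ M, ∀ c, c ∉ F → ∃ Γ : Subgroup G, (∀ x ∈ Γ, x ∈ F ∧ QE q x) ∧ s ∈ Γ ∧
      c * s * c⁻¹ ∈ Γ ∧ Γ.lowerCentralSeries n = ⊥) {D : Subgroup G} (hD : DD F M D) :
    ∃ D', DD F M D' ∧ D ≤ D' ∧ ¬ D' ≤ D := by
  obtain ⟨hD, b, b1, b2, b3⟩ := hD
  obtain ⟨j, w1, w2⟩ := exists_term hM (M := D) fun h =>
    b2 (nz_of_fin (hp b b1) fun x hx => hD (nz_conj b3 (h hx)))
  rw [inf_eq_right.2 hD] at w2
  have wM := lowerCentralSeries_le_self M j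
  have wa : ∀ c ∈ normalizer (M : Set G), ∀ x ∈ M.lowerCentralSeries j,
      c * x * c⁻¹ ∈ M.lowerCentralSeries j := fun c hc x hx => by
    have h1 : M.map (MulAut.conj c).toMonoidHom ≤ M := by
      rintro _ ⟨y, hy, rfl⟩
      exact nz_conj hc hy
    refine lowerCentralSeries_mono j h1 ?_
    change _ ∈ (M.map (MulAut.conj c).toMonoidHom).lowerCentralSeries j
    rw [← map_lowerCentralSeries]
    exact ⟨x, hx, rfl⟩
  obtain ⟨s, s1, s2, s3⟩ : ∃ s ∈ M.lowerCentralSeries j, s ∉ D ∧ a * s * a⁻¹ ∉ D := by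
    obtain ⟨u, u1, u2⟩ := SetLike.not_le_iff_exists.1 w1
    have v1 := wa _ (inv_mem haM) u u1
    have v2 : a * (a⁻¹ * u * a⁻¹⁻¹) * a⁻¹ = u := by group
    by_cases c1 : a * u * a⁻¹ ∈ D
    swap
    · exact ⟨u, u1, u2, c1⟩
    by_cases c2 : a⁻¹ * u * a⁻¹⁻¹ ∈ D
    swap
    · exact ⟨_, v1, c2, by rwa [v2]⟩
    refine ⟨u * (a⁻¹ * u * a⁻¹⁻¹), mul_mem u1 v1, fun h => u2 ?_, fun h => u2 ?_⟩
    · exact (Subgroup.mul_mem_cancel_right D c2).1 h
    · refine (Subgroup.mul_mem_cancel_left D c1).1 ?_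
      convert h using 1
      group
  have sa := wa a haM s s1
  by_cases ht : b * (a * s * a⁻¹) * b⁻¹ ∈ M
  · exact conj_step hMF hM hp hQ hs hD (inv_mem b1) (fun h => b2 (by simpa using inv_mem h))
      (inv_mem b3) (wM sa) s3 (by rwa [inv_inv])
  obtain ⟨Γ, g1, g2, g3, g4⟩ := hk s (wM s1) (b * a) fun h =>
    ha (by simpa using mul_mem (inv_mem b1) h)
  have hP : (Γ ⊓ normalizer (D : Set G)).lowerCentralSeries n = ⊥ :=
    le_bot_iff.1 ((lowerCentralSeries_mono n inf_le_left).trans g4.le)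
  rw [show b * a * s * (b * a)⁻¹ = b * (a * s * a⁻¹) * b⁻¹ by group] at g3
  obtain ⟨g, p1, p2, p3⟩ := exists_nz hP (M := M) fun h =>
    ht (h (mem_inf.2 ⟨g3, mul_mem (mul_mem b3 (w2 sa)) (inv_mem b3)⟩))
  refine conj_step hMF hM hp hQ hs hD (g1 g p1.1).1
    (fun h => p2 (hs g (g1 g p1.1).1 (g1 g p1.1).2 h)) p1.2 (wM s1) s2 ?_
  have := (nz_conj (inv_mem p3) (x := s) ⟨⟨g2, w2 s1⟩, wM s1⟩).2
  rwa [inv_inv] at this

end grow

lemma select {F M : Subgroup G} (H : NoChain F M)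
    (i : ℕ) {D : Subgroup G} (hD : DD F M D) : ∃ D', DD F M D' ∧ D ≤ D' ∧ ∀ U, DD F M U →
      D' ≤ U → F ⊓ centralizer (D'.lowerCentralSeries i : Set G) ≤
        centralizer (U.lowerCentralSeries i : Set G) := by
  by_contra hc
  have h1 : ∀ A : {A : Subgroup G // DD F M A ∧ D ≤ A},
      ∃ B : {A : Subgroup G // DD F M A ∧ D ≤ A}, A.1 ≤ B.1 ∧ ∃ g ∈ F, ∃ x ∈
        B.1.lowerCentralSeries i, (∀ y ∈ A.1.lowerCentralSeries i, Commute g y) ∧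
          ¬ Commute g x := by
    intro A
    by_contra h2
    refine hc ⟨A.1, A.2.1, A.2.2, fun U u1 u2 g hg => mem_centralizer_iff.2 fun x hx => ?_⟩
    by_contra h3
    exact h2 ⟨⟨U, u1, A.2.2.trans u2⟩, u2, g, hg.1, x, hx,
      fun y hy => (mem_centralizer_iff.1 hg.2 y hy).symm, fun h => h3 h.symm⟩
  choose f f1 g g1 x x1 x2 x3 using h1
  let A : ℕ → {A : Subgroup G // DD F M A ∧ D ≤ A} := fun m => f^[m] ⟨D, hD, le_rfl⟩
  have hA : ∀ m, A (m + 1) = f (A m) := fun m => Function.iterate_succ_apply' _ _ _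
  have hm : Monotone fun m => (A m).1 := monotone_nat_of_le_succ fun m => by
    rw [hA]; exact f1 _
  obtain ⟨n, hn⟩ := H (fun m => x (A m)) fun m =>
    (f (A m)).2.1.1 (lowerCentralSeries_le_self _ i (x1 _))
  refine x3 (A n) (hn _ (g1 _) fun j hj => x2 _ _ ?_)
  refine lowerCentralSeries_mono i (hm (show j + 1 ≤ n from hj)) ?_
  change _ ∈ (A (j + 1)).1.lowerCentralSeries i
  rw [hA]
  exact x1 _

lemma select_all {F M : Subgroup G} (H : NoChain F M)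
    (h0 : DD F M ⊥) (k : ℕ) : ∃ D, DD F M D ∧ ∀ U, DD F M U → D ≤ U → ∀ i, i < k →
      F ⊓ centralizer (D.lowerCentralSeries i : Set G) ≤
        centralizer (U.lowerCentralSeries i : Set G) := by
  induction k with
  | zero => exact ⟨⊥, h0, fun _ _ _ i hi => absurd hi (Nat.not_lt_zero i)⟩
  | succ k ih =>
    obtain ⟨D, d1, d2⟩ := ih
    obtain ⟨D', e1, e2, e3⟩ := select H k d1
    refine ⟨D', e1, fun U u1 u2 i hi => ?_⟩
    rcases Nat.lt_succ_iff_lt_or_eq.1 hi with h | rfl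
    · exact (inf_le_inf_left F (centralizer_le (lowerCentralSeries_mono i e2))).trans
        (d2 U u1 (e2.trans u2) i h)
    · exact e3 U u1 u2

theorem mem_of_qe {F M : Subgroup G} [F.Normal] {a : G} {n q : ℕ} (hq : q.Prime) (ha : a ∉ F)
    (hMF : M ≤ F) (hM : M.lowerCentralSeries n = ⊥) (haM : a ∈ normalizer (M : Set G))
    (hp : ∀ x ∈ F, IsOfFinOrder x) (hQ : ∀ x ∈ M, QE q x)
    (hs : ∀ g ∈ F, QE q g → g ∈ normalizer (M : Set G) → g ∈ M)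
    (hk : ∀ s ∈ M, ∀ c, c ∉ F → ∃ Γ : Subgroup G, (∀ x ∈ Γ, x ∈ F ∧ QE q x) ∧ s ∈ Γ ∧
      c * s * c⁻¹ ∈ Γ ∧ Γ.lowerCentralSeries n = ⊥)
    (H : NoChain F M) : ∀ g ∈ F, QE q g → g ∈ M := by
  intro b0 hb0 hb2
  by_contra hb1
  obtain ⟨D, d1, d2⟩ := select_all H
    ⟨bot_le, b0, hb0, fun h => hb1 (hs b0 hb0 hb2 h), nz_bot b0⟩ n
  obtain ⟨Y0, y1, y2, y3, y4⟩ := envelope (d1.1.trans hMF) n
  obtain ⟨Y, z1, z2⟩ := qpart hq y2 fun x hx => hp x (y1 hx)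
  have hU : ∀ U, DD F M U → D ≤ U → U ≤ Y ⊓ M := fun U u1 u2 => le_inf (fun x hx => (z2 x).2
    ⟨y4 U u2 (u1.1.trans hMF) (le_bot_iff.1 ((lowerCentralSeries_mono n u1.1).trans hM.le))
      (d2 U u1 u2) hx, hQ x (u1.1 hx)⟩) u1.1
  have hY : DD F M (Y ⊓ M) := by
    refine ⟨inf_le_right, ?_⟩
    by_cases h : Y ≤ M
    · obtain ⟨-, b, b1, b2, b3⟩ := d1
      rw [inf_eq_left.2 h]
      have b4 := y3 b b1 b3
      exact ⟨b, b1, b2, mem_nz
        (fun x hx => (z2 _).2 ⟨nz_conj b4 ((z2 x).1 hx).1, ((z2 x).1 hx).2.conj _⟩)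
        fun x hx => (z2 _).2 ⟨nz_conj (inv_mem b4) ((z2 x).1 hx).1, ((z2 x).1 hx).2.conj _⟩⟩
    · obtain ⟨b, b1, b2, b3⟩ := exists_nz z1 h
      obtain ⟨b4, b5⟩ := (z2 b).1 b1
      exact ⟨b, y1 b4, fun h => b2 (hs b (y1 b4) b5 h), b3⟩
  obtain ⟨U, u1, u2, u3⟩ := grow ha hMF hM haM hp hQ hs hk hY
  exact u3 (hU U u1 ((hU D d1 le_rfl).trans u2))

lemma lf_fin {K : Subgroup G} (h : Finite K) : LF K := fun _ _ hs =>
  Finite.of_injective _ (Subgroup.inclusion_injective ((closure_le K).2 hs))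

lemma nil_of_lf {M : Subgroup G} {a : G} {n : ℕ} (hM : LF M)
    (h0 : ∀ x ∈ M, ∃ Γ : Subgroup G, (Γ ≤ M ∧ Finite Γ ∧ ∀ y ∈ Γ, a * y * a⁻¹ ∈ Γ) ∧ x ∈ Γ)
    (h1 : ∀ Γ : Subgroup G, Γ ≤ M → Finite Γ → (∀ y ∈ Γ, a * y * a⁻¹ ∈ Γ) →
      Γ.lowerCentralSeries n = ⊥) : M.lowerCentralSeries n = ⊥ := by
  let S := {Γ : Subgroup G // Γ ≤ M ∧ Finite Γ ∧ ∀ y ∈ Γ, a * y * a⁻¹ ∈ Γ}
  have hd : ∀ A B : S, ∃ C : S, A.1 ≤ C.1 ∧ B.1 ≤ C.1 := by
    rintro ⟨A, a1, a2, a3⟩ ⟨B, b1, b2, b3⟩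
    refine ⟨⟨A ⊔ B, sup_le a1 b1, ?_, ?_⟩, le_sup_left, le_sup_right⟩
    · rw [Subgroup.sup_eq_closure]
      exact hM _ ((Set.toFinite (A : Set G)).union (Set.toFinite (B : Set G)))
        (Set.union_subset a1 b1)
    · have : A ⊔ B ≤ (A ⊔ B).comap (MulAut.conj a).toMonoidHom :=
        sup_le (fun y hy => mem_sup_left (a3 y hy)) fun y hy => mem_sup_right (b3 y hy)
      exact fun y hy => this hy
  obtain ⟨Γ0, h2, -⟩ := h0 1 (one_mem M)
  have : Nonempty S := ⟨⟨Γ0, h2⟩⟩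
  have mem : ∀ k x, x ∈ (⨆ A : S, A.1.lowerCentralSeries k) ↔
      ∃ A : S, x ∈ A.1.lowerCentralSeries k := fun k x =>
    mem_iSup_of_directed fun A B => by
      obtain ⟨C, c1, c2⟩ := hd A B
      exact ⟨C, lowerCentralSeries_mono k c1, lowerCentralSeries_mono k c2⟩
  have key : ∀ k, M.lowerCentralSeries k ≤ ⨆ A : S, A.1.lowerCentralSeries k := by
    intro k
    induction k with
    | zero =>
      intro x hx
      obtain ⟨Γ, g1, g2⟩ := h0 x hx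
      exact (mem 0 x).2 ⟨⟨Γ, g1⟩, g2⟩
    | succ k ih =>
      refine commutator_le.2 fun x hx y hy => ?_
      obtain ⟨A, hA⟩ := (mem k x).1 (ih hx)
      obtain ⟨Γ, g1, g2⟩ := h0 y hy
      obtain ⟨C, c1, c2⟩ := hd A ⟨Γ, g1⟩
      exact (mem (k + 1) _).2
        ⟨C, commutator_mem_commutator (lowerCentralSeries_mono k c1 hA) (c2 g2)⟩
  exact le_bot_iff.1 ((key n).trans (iSup_le fun A => (h1 A.1 A.2.1 A.2.2.1 A.2.2.2).le))

theorem primary {p n q : ℕ} (hp : p.Prime) (hq : q.Prime) (HF : Three.FinG p n) (F : Subgroup G)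
    [hF : F.Normal] (a : G) (ha : a ∉ F) (hc : ∀ c, c ∉ F → c ^ p = 1)
    (hb : ∀ y ∈ F, Three.Cop p y)
    (hfin : ∀ c d, c ∉ F → d ∉ F → Finite (closure ({c, d} : Set G))) (K0 : Subgroup G)
    (hK : InvNil a F q K0) (H : ∀ N : Subgroup G, K0 ≤ N → InvNil a F q N → NoChain F N) :
    ∃ M : Subgroup G, M.Normal ∧ LF M ∧ ∀ g ∈ F, QE q g → g ∈ M := by
  have hout : ∀ c, c ∉ F → ∀ y ∈ F, y * c ∉ F := fun c h1 y hy h =>
    h1 (by simpa using F.mul_mem (F.inv_mem hy) h)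
  have hper : ∀ y ∈ F, IsOfFinOrder y := fun y hy => by
    obtain ⟨k, hk, h⟩ := hb y hy
    refine isOfFinOrder_iff_pow_eq_one.2 ⟨k, Nat.pos_of_ne_zero ?_, h⟩
    rintro rfl
    exact hp.one_lt.ne' (by simpa using hk)
  have hnil : ∀ c, c ∉ F → ∀ Γ : Subgroup G, Γ ≤ F → Finite Γ → (∀ y ∈ Γ, c * y * c⁻¹ ∈ Γ) →
      Γ.lowerCentralSeries n = ⊥ := fun c h1 Γ g1 g2 g3 =>
    HF G Γ c g2 (fun w hw => hb w (g1 hw)) g3 fun w hw => hc _ (hout c h1 w (g1 hw))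
  have hker : ∀ s ∈ F, QE q s → ∀ c, c ∉ F → ∃ Γ : Subgroup G, (∀ x ∈ Γ, x ∈ F ∧ QE q x) ∧
      s ∈ Γ ∧ Finite Γ ∧ (∀ y ∈ Γ, c * y * c⁻¹ ∈ Γ) ∧
        ∀ T : Subgroup G, s ∈ T → c ∈ T → Γ ≤ T := by
    intro s hs hs' c h1
    have := hfin c (s * c) h1 (hout c h1 s hs)
    have h2 : c ∈ closure ({c, s * c} : Set G) := subset_closure (by simp)
    have h3 : s * c ∈ closure ({c, s * c} : Set G) := subset_closure (by simp)
    have h4 : ∀ y ∈ closure ({c, s * c} : Set G) ⊓ F,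
        c * y * c⁻¹ ∈ closure ({c, s * c} : Set G) ⊓ F := fun y hy =>
      mem_inf.2 ⟨mul_mem (mul_mem h2 (mem_inf.1 hy).1) (inv_mem h2), hF.conj_mem y hy.2 c⟩
    obtain ⟨Γ, -, g2⟩ := qpart hq (hnil c h1 _ inf_le_right
      (Finite.of_injective _ (Subgroup.inclusion_injective inf_le_left)) h4)
      fun x hx => hper x hx.2
    have h5 : Γ ≤ closure ({c, s * c} : Set G) := fun x hx => ((g2 x).1 hx).1.1
    refine ⟨Γ, fun x hx => ⟨((g2 x).1 hx).1.2, ((g2 x).1 hx).2⟩,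
      (g2 s).2 ⟨⟨by simpa using mul_mem h3 (inv_mem h2), hs⟩, hs'⟩,
      Finite.of_injective _ (Subgroup.inclusion_injective h5),
      fun y hy => (g2 _).2 ⟨h4 y ((g2 y).1 hy).1, ((g2 y).1 hy).2.conj c⟩,
      fun T t1 t2 => h5.trans ((closure_le T).2 ?_)⟩
    rintro _ (rfl | rfl)
    exacts [t2, mul_mem t1 t2]
  obtain ⟨k1, k2, k3, k4⟩ := hK
  obtain ⟨n0, hn0⟩ := (isNilpotent_iff_lowerCentralSeries K0).1 k4
  obtain ⟨M, m0, ⟨m1, m2, m3⟩, m4⟩ := zorn_le_nonempty₀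
    {M : Subgroup G | (∀ x ∈ M, x ∈ F ∧ QE q x) ∧ LF M ∧ ∀ x ∈ M, a * x * a⁻¹ ∈ M}
    (fun c hc hch y hy => by
      have mem : ∀ x, x ∈ sSup c ↔ ∃ K ∈ c, x ∈ K := fun x =>
        mem_sSup_of_directedOn ⟨y, hy⟩ hch.directedOn
      refine ⟨sSup c, ⟨fun x hx => ?_, fun s hs hsR => ?_, fun x hx => ?_⟩,
        fun z hz => le_sSup hz⟩
      · obtain ⟨K, hK, h⟩ := (mem x).1 hx
        exact (hc hK).1 x h
      · have : ∃ K ∈ c, s ⊆ K := by
          induction s, hs using Set.Finite.induction_on with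
          | empty => exact ⟨y, hy, by simp⟩
          | insert _ _ ih =>
            obtain ⟨h1, h2⟩ := Set.insert_subset_iff.1 hsR
            obtain ⟨A, hA, h3⟩ := ih h2
            obtain ⟨B, hB, h4⟩ := (mem _).1 h1
            obtain ⟨M, hM, h5, h6⟩ := hch.directedOn A hA B hB
            exact ⟨M, hM, Set.insert_subset_iff.2 ⟨h6 h4, h3.trans h5⟩⟩
        obtain ⟨K, hK, h⟩ := this
        exact (hc hK).2.1 s hs h
      · obtain ⟨K, hK, h⟩ := (mem x).1 hx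
        exact (mem _).2 ⟨K, hK, (hc hK).2.2 x h⟩) K0
    ⟨fun x hx => ⟨k1 hx, (k3 ⟨x, hx⟩).imp fun _ h => congrArg Subtype.val h⟩,
      Three.nilLF G K0 n0 hn0 fun x hx => hper x (k1 hx), k2⟩
  have mF : M ≤ F := fun x hx => (m1 x hx).1
  have haM : a ∈ normalizer (M : Set G) :=
    nz_of_fin (isOfFinOrder_iff_pow_eq_one.2 ⟨p, hp.pos, hc a ha⟩) m3
  have hM : M.lowerCentralSeries n = ⊥ := by
    refine nil_of_lf (a := a) m2 (fun x hx => ?_) fun Γ g1 => hnil a ha Γ (g1.trans mF)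
    obtain ⟨Γ, -, g2, g3, g4, -⟩ := hker x (mF hx) (m1 x hx).2 a ha
    exact ⟨Γ ⊓ M, ⟨inf_le_right, Finite.of_injective _ (Subgroup.inclusion_injective inf_le_left),
      fun y hy => ⟨g4 y hy.1, m3 y hy.2⟩⟩, g2, hx⟩
  have hs : ∀ g ∈ F, QE q g → g ∈ normalizer (M : Set G) → g ∈ M := by
    intro g hg hg' h
    obtain ⟨Γ, g1, g2, g3, g4, g5⟩ := hker g hg hg' a ha
    have g6 := g5 _ h haM
    obtain ⟨M', e1, e2⟩ := (lf_fin g3).sup m2 fun w hw k hk => by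
      simpa [cj] using nz_conj (inv_mem (g6 hw)) hk
    refine m4 (y := M') ⟨fun x hx => ?_, e2, fun x hx => ?_⟩
      (fun x hx => (e1 x).2 ⟨1, one_mem _, x, hx, by simp⟩)
      ((e1 g).2 ⟨g, g2, 1, one_mem _, by simp⟩)
    · obtain ⟨w, hw, k, hk, rfl⟩ := (e1 x).1 hx
      refine ⟨mul_mem (g1 w hw).1 (mF hk), ?_⟩
      obtain ⟨i, hi⟩ := (g1 w hw).2
      have h1 := Three.ModA.nk_mem (fun μ hμ => nz_conj (g6 hw) hμ) (nz_conj (g6 hw) hk) (q ^ i)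
      rw [hi, inv_one, mul_one, inv_mul_cancel_right] at h1
      obtain ⟨j, hj⟩ := (m1 _ h1).2
      exact ⟨i + j, by rw [pow_add, pow_mul, hj]⟩
    · obtain ⟨w, hw, k, hk, rfl⟩ := (e1 x).1 hx
      exact (e1 _).2 ⟨_, g4 w hw, _, m3 k hk, by group⟩
  have hFM := mem_of_qe hq ha mF hM haM hper (fun x hx => (m1 x hx).2) hs (fun s h1 c h2 => by
      obtain ⟨Γ, g1, g2, g3, g4, -⟩ := hker s (mF h1) (m1 s h1).2 c h2
      exact ⟨Γ, g1, g2, g4 s g2, hnil c h2 Γ (fun x hx => (g1 x hx).1) g3 g4⟩)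
    (H M m0 ⟨mF, m3, fun x => (m1 x x.2).2.imp fun _ h => Subtype.ext h,
      isNilpotent_of_lowerCentralSeries_eq_bot hM⟩)
  exact ⟨M, ⟨fun x hx g => hFM _ (hF.conj_mem x (mF hx) g) ((m1 x hx).2.conj g)⟩, m2, hFM⟩

lemma mem_of_parts {R : Subgroup G} [R.Normal] {x : G} (hx : IsOfFinOrder x)
    (h : ∀ q : ℕ, q.Prime → q ∣ orderOf x → ∀ m : ℕ, QE q (x ^ m) → x ^ m ∈ R) : x ∈ R := by
  rw [← QuotientGroup.eq_one_iff, ← orderOf_eq_one_iff]
  by_contra h1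
  obtain ⟨q, hq, h2⟩ := Nat.exists_prime_and_dvd h1
  have h3 : orderOf (x : G ⧸ R) ∣ orderOf x := orderOf_map_dvd (QuotientGroup.mk' R) x
  obtain ⟨k, m, h4, h5⟩ := Nat.exists_eq_pow_mul_and_not_dvd hx.orderOf_pos.ne' q hq.ne_one
  have h6 := h q hq (h2.trans h3) m ⟨k, by rw [← pow_mul, mul_comm, ← h5, pow_orderOf_eq_one]⟩
  rw [← QuotientGroup.eq_one_iff, QuotientGroup.mk_pow] at h6
  exact h4 (h2.trans (orderOf_dvd_of_pow_eq_one h6))

theorem final {p n : ℕ} (hp : p.Prime) (HF : Three.FinG p n) (F : Subgroup G)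
    [hF : F.Normal] (a : G) (ha : a ∉ F) (hc : ∀ c, c ∉ F → c ^ p = 1)
    (hb : ∀ y ∈ F, Three.Cop p y)
    (hfin : ∀ c d, c ∉ F → d ∉ F → Finite (closure ({c, d} : Set G))) (s : Set G) (hs : s.Finite)
    (hsF : s ⊆ F) (H : ∀ x ∈ s, ∀ q : ℕ, q.Prime → q ∣ orderOf x → ∃ K : Subgroup G,
      InvNil a F q K ∧ ∀ N : Subgroup G, K ≤ N → InvNil a F q N → NoChain F N) :
    Finite (closure s) := by
  obtain ⟨R, r1, r2, r3⟩ := Three.exists_radical (G := G)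
  refine r2 s hs fun x hx => mem_of_parts ?_ fun q hq h1 m h2 => ?_
  · obtain ⟨k, hk, h⟩ := hb x (hsF hx)
    refine isOfFinOrder_iff_pow_eq_one.2 ⟨k, Nat.pos_of_ne_zero ?_, h⟩
    rintro rfl
    exact hp.one_lt.ne' (by simpa using hk)
  · obtain ⟨K, k1, k2⟩ := H x hx q hq h1
    obtain ⟨M, m1, m2, m3⟩ := primary hp hq HF F a ha hc hb hfin K k1 k2
    exact r3 M m1 m2 (m3 _ (pow_mem (hsF hx) m) h2)

open Three in
theorem main (a : G) (F : Subgroup G) (hp : (orderOf a).Prime)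
    (hmal : ∀ g : G, g ∉ Subgroup.zpowers a →
      ∀ x ∈ Subgroup.zpowers a, g * x * g⁻¹ ∈ Subgroup.zpowers a → x = 1)
    (hF : ∀ x : G, x ∈ F ↔ (x = 1 ∨ ∀ g : G, ∀ k : ℤ, x ≠ g * a ^ k * g⁻¹))
    (hfin : ∀ g : G, Finite (Subgroup.closure ({a, g * a * g⁻¹} : Set G))) (s : Finset G)
    (hsF : (↑s : Set G) ⊆ (F : Set G)) (H : ∀ x ∈ s, ∀ q : ℕ, q.Prime → q ∣ orderOf x →
      ∃ K : Subgroup G, InvNil a F q K ∧ ∀ N : Subgroup G, K ≤ N → InvNil a F q N → NoChain F N) :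
    Finite (Subgroup.closure (s : Set G)) := by
  obtain ⟨p, ho⟩ : ∃ p, orderOf a = p := ⟨_, rfl⟩
  rw [ho] at hp
  obtain ⟨n, hG⟩ := graded p hp
  have HL := lieH_of_graded p n hp hG
  have HF := finG (ghf p n hp HL)
    (thoF (npc hh (conf off) quotH (stepA (frob frobA))) normId nilPN p hp)
  have hn : F.Normal := ⟨fun x hx g => by
    rcases (hF x).1 hx with rfl | h
    · simp
    · refine (hF _).2 (Or.inr fun g' k e => h (g⁻¹ * g') k ?_)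
      calc x = g⁻¹ * (g * x * g⁻¹) * g := by group
        _ = _ := by rw [e]; group⟩
  have out : ∀ g, g ∉ F → ∃ h, ∃ k : ℤ, g = (h * a * h⁻¹) ^ k := fun g hg => by
    by_contra h
    exact hg ((hF g).2 (Or.inr fun h' k e => h ⟨h', k, by rw [e, conj_zpow]⟩))
  have ha1 : a ≠ 1 := fun h1 => hp.one_lt.ne (by rw [← ho, h1, orderOf_one])
  have ha : a ∉ F := fun h => ((hF _).1 h).elim ha1 fun h => h 1 1 (by simp)
  have hap : a ^ p = 1 := ho ▸ pow_orderOf_eq_one a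
  have hc : ∀ c, c ∉ F → c ^ p = 1 := fun c h1 => by
    obtain ⟨h, k, rfl⟩ := out c h1
    rw [← zpow_natCast, ← zpow_mul, mul_comm k, zpow_mul, zpow_natCast, conj_pow, hap]
    group
  have hfin2 : ∀ c d, c ∉ F → d ∉ F → Finite (Subgroup.closure ({c, d} : Set G)) := by
    intro c d h1 h2
    obtain ⟨g, k, rfl⟩ := out c h1
    obtain ⟨h, l, rfl⟩ := out d h2
    have h3 := hfin (g⁻¹ * h)
    have h4 : Finite ((Subgroup.closure ({a, g⁻¹ * h * a * (g⁻¹ * h)⁻¹} : Set G)).map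
      (MulAut.conj g).toMonoidHom) := Finite.of_equiv _ ((MulAut.conj g).subgroupMap _).toEquiv
    rw [MonoidHom.map_closure] at h4
    refine fin_sub h4 ?_
    rw [Set.insert_subset_iff, Set.singleton_subset_iff]
    refine ⟨zpow_mem (Subgroup.subset_closure ?_) k, zpow_mem (Subgroup.subset_closure ?_) l⟩
    exacts [⟨a, by simp, rfl⟩, ⟨_, Or.inr rfl, by simp [mul_assoc]⟩]
  refine final hp HF F a ha hc (fun y hy => ?_) hfin2 _ s.finite_toSet hsF H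
  let L := Subgroup.closure ({a, y * a} : Set G)
  have : Finite L := hfin2 _ _ ha fun h => ha (by simpa using F.mul_mem (F.inv_mem hy) h)
  have haL : a ∈ L := Subgroup.subset_closure (by simp)
  have hyL : y ∈ L ⊓ F := ⟨by
    simpa using L.mul_mem (Subgroup.subset_closure (by simp) : y * a ∈ L) (L.inv_mem haL), hy⟩
  have : Finite (L ⊓ F : Subgroup G) :=
    Finite.of_injective _ (Subgroup.inclusion_injective inf_le_left)
  refine ⟨Nat.card (L ⊓ F : Subgroup G), ((Nat.Prime.coprime_iff_not_dvd hp).2 fun hd => ?_).symm,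
    congrArg Subtype.val (pow_card_eq_one' (x := (⟨y, hyL⟩ : (L ⊓ F : Subgroup G))))⟩
  have := Fact.mk hp
  have hno : Subgroup.zpowers a ≤ Subgroup.normalizer ((L ⊓ F : Subgroup G) : Set G) :=
    Subgroup.zpowers_le.2 (Subgroup.mem_normalizer_fintype fun w hw =>
      ⟨L.mul_mem (L.mul_mem haL hw.1) (L.inv_mem haL), hn.conj_mem w hw.2 a⟩)
  let _ : MulAction (Subgroup.zpowers a) (L ⊓ F : Subgroup G) :=
    MulAction.compHom _ ((L ⊓ F).normalizerMonoidHom.comp (Subgroup.inclusion hno))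
  have hP : IsPGroup p (Subgroup.zpowers a) :=
    IsPGroup.of_card (n := 1) (by rw [Nat.card_zpowers, ho, pow_one])
  obtain ⟨v, hv, hv1⟩ := hP.exists_fixed_point_of_prime_dvd_card_of_fixed_point
    (L ⊓ F : Subgroup G) hd (a := 1)
    (fun g => map_one ((L ⊓ F).normalizerMonoidHom (Subgroup.inclusion hno g)))
  have h1 : a * v * a⁻¹ = v := congrArg Subtype.val (hv ⟨a, Subgroup.mem_zpowers a⟩)
  refine ha1 (hmal v (fun h2 => ?_) a (Subgroup.mem_zpowers a) ?_)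
  · obtain ⟨k, hk⟩ := h2
    rcases (hF v).1 v.2.2 with h3 | h3
    · exact hv1 (Subtype.ext h3).symm
    · exact h3 1 k (by simpa using hk.symm)
  · rw [← mul_inv_eq_iff_eq_mul.1 h1, mul_inv_cancel_right]
    exact Subgroup.mem_zpowers a

end Pool.Agent.MP_b7033c_al.Chain
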