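import Mathlib

set_option autoImplicit false

namespace Pool.Agent.MP_b7033c_al.Chain

/-- `N` is a nilpotent `q`-subgroup of `F` that is mapped into itself by conjugation with `a`. -/
def InvNil {G : Type} [Group G] (a : G) (F : Subgroup G) (q : ℕ) (N : Subgroup G) : Prop :=
  N ≤ F ∧ (∀ x ∈ N, a * x * a⁻¹ ∈ N) ∧ IsPGroup q N ∧ Group.IsNilpotent N

/-- There is no sequence `y 0, y 1, ...` in `N` such that the centralisers in `F` of the initial
segments form a strictly descending chain. -/
def NoChain {G : Type} [Group G] (F N : Subgroup G) : Prop :=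
  ∀ y : ℕ → G, (∀ i, y i ∈ N) →
    ∃ n, ∀ g ∈ F, (∀ i, i < n → Commute g (y i)) → Commute g (y n)

end Pool.Agent.MP_b7033c_al.Chain
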